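import Pool.Agent.helper32.NN.Cnt

/-!
# MP_3938c6_al: structure of the counterexamples

Let `K` be any field and `A` an associative, not necessarily unital, `K`-algebra of dimension greater
than one, all of whose proper subalgebras are nilpotent, and suppose that `A` is not nilpotent (a
counterexample to the statement of Q1 over `K`). For every `k` let `TS K A k` be the sum of ALL two-sided
ideals of `A` in which all products of `k + 1` elements vanish. Then every `TS K A k` is a proper,
nilpotent ideal; they increase with union `A`; every proper subalgebra is contained in one of them; a set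
generates `A` if and only if it is contained in none of them; `A` has no maximal subalgebra; and the
dimension of `A` is countable. (So over every field the statement of Q1 holds for every `A` of uncountable
dimension.)
-/

set_option autoImplicit false

namespace Pool.Agent.Results.MP_3938c6_al.CounterexampleStructure

open Pool.Agent.NN

theorem result (K : Type*) (A : Type*) [Field K] [NonUnitalRing A] [Module K A]
    [IsScalarTower K A A] [SMulCommClass K A A] (hdim : 1 < Module.rank K A)
    (hprop : PropNil K A) (hnot : ¬ Nilp A) :
    (∀ k : ℕ, IdealOf K A (TS K A k) ∧ TS K A k ≠ ⊤ ∧ (∃ n : ℕ, NilOf K A (TS K A k) n) ∧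
      TS K A k ≤ TS K A (k + 1)) ∧
    (∀ a : A, ∃ k : ℕ, a ∈ TS K A k) ∧
    (∀ B : NonUnitalSubalgebra K A, B ≠ ⊤ → ∃ k : ℕ, ∀ b ∈ B, b ∈ TS K A k) ∧
    (∀ X : Set A, NonUnitalAlgebra.adjoin K X = ⊤ ↔ ∀ k : ℕ, ¬ X ⊆ TS K A k) ∧
    (∀ B : NonUnitalSubalgebra K A, B ≠ ⊤ → ∃ B' : NonUnitalSubalgebra K A, B' ≠ ⊤ ∧ B < B') ∧
    Module.rank K A ≤ Cardinal.aleph0 :=
  fin_cnt all_STR K A hdim hprop hnot

end Pool.Agent.Results.MP_3938c6_al.CounterexampleStructure
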