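import Pool.Agent.helper8.FR.Final

/-!
# MP_3938c6_al: quotients generated by elements of finite inner rank

Let `K` be any field and `A` an associative, not necessarily unital, `K`-algebra of dimension greater
than one all of whose proper subalgebras are nilpotent. Suppose that some nonzero homomorphic image `A'`
of `A` is generated, as a two-sided ideal of itself, by elements `y` for which the space `y A' y` is
finite-dimensional. Then `A` is nilpotent.
-/

set_option autoImplicit false

namespace Pool.Agent.Results.MP_3938c6_al.FiniteRankElements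

theorem result (K : Type*) [Field K]
    (A : Type*) [NonUnitalRing A] [Module K A] [IsScalarTower K A A] [SMulCommClass K A A]
    (hdim : 1 < Module.rank K A)
    (hprop : ∀ B : NonUnitalSubalgebra K A, B ≠ ⊤ →
      ∃ n : ℕ, ∀ a ∈ B, ∀ l : List A, (∀ x ∈ l, x ∈ B) → l.length = n →
        l.foldl (fun x y => x * y) a = 0)
    (A' : Type*) [NonUnitalRing A'] [Module K A'] [IsScalarTower K A' A'] [SMulCommClass K A' A']
    [Nontrivial A'] (π : A →ₙₐ[K] A') (hπ : Function.Surjective π)
    (hgen : ∀ J : Submodule K A', (∀ a : A', ∀ x ∈ J, a * x ∈ J ∧ x * a ∈ J) →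
      (∀ y : A', (∃ F : Submodule K A', FiniteDimensional K F ∧ ∀ a : A', y * a * y ∈ F) →
        y ∈ J) → J = ⊤) :
    ∃ n : ℕ, ∀ a : A, ∀ l : List A, l.length = n → l.foldl (fun x y => x * y) a = 0 :=
  Pool.Agent.FR.final K A hdim hprop A' π hπ hgen

end Pool.Agent.Results.MP_3938c6_al.FiniteRankElements
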