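import Pool.Agent.helper66.FO.AllI

/-!
# MP_3938c6_al: algebras with a nonzero quotient that satisfies an identity up to finite rank

Let `K` be any field of characteristic zero (for example the rationals) and `A` an associative, not
necessarily unital, `K`-algebra of dimension greater than one all of whose proper subalgebras are
nilpotent. Let `f_i`, `g_i` (`i < n`) be noncommutative polynomials over `K` (constant terms allowed),
the `g_i` linearly independent over `K` and not all `f_i` zero, and suppose that `A` has a nonzero
homomorphic image `A'` such that for all values `x_0, x_1, …` of the variables in `A'` the linear map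
`y ↦ ∑ f_i(x) y g_i(x)` from `A'` to itself has finite rank. Then `A` is nilpotent.

The case `n = 1`, `g = 1`, `f(x) = 0` for all `x`, contains all algebras with a nonzero quotient that
satisfies a polynomial identity.
-/

set_option autoImplicit false

namespace Pool.Agent.Results.MP_3938c6_al.FiniteRankIdentity

theorem result (K : Type*) [Field K] [CharZero K]
    (A : Type*) [NonUnitalRing A] [Module K A] [IsScalarTower K A A] [SMulCommClass K A A]
    (hdim : 1 < Module.rank K A)
    (hprop : ∀ B : NonUnitalSubalgebra K A, B ≠ ⊤ →
      ∃ n : ℕ, ∀ a ∈ B, ∀ l : List A, (∀ x ∈ l, x ∈ B) → l.length = n →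
        l.foldl (fun x y => x * y) a = 0)
    (A' : Type*) [NonUnitalRing A'] [Module K A'] [IsScalarTower K A' A'] [SMulCommClass K A' A']
    [Nontrivial A'] (π : A →ₙₐ[K] A') (hπ : Function.Surjective π)
    (n : ℕ) (f g : Fin n → FreeAlgebra K ℕ) (hg : LinearIndependent K g) (hf : ∃ i, f i ≠ 0)
    (hid : ∀ x : ℕ → A', ∃ F : Submodule K (Unitization K A'), FiniteDimensional K F ∧
      ∀ y : A',
        ∑ i, FreeAlgebra.lift K (fun j => (Unitization.inr (x j) : Unitization K A')) (f i) *
          (Unitization.inr y : Unitization K A') *
          FreeAlgebra.lift K (fun j => (Unitization.inr (x j) : Unitization K A')) (g i) ∈ F) :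
    ∃ n : ℕ, ∀ a : A, ∀ l : List A, l.length = n → l.foldl (fun x y => x * y) a = 0 :=
  Pool.Agent.FO.all_FIR K A hdim hprop A' π hπ n f g hg hf hid

end Pool.Agent.Results.MP_3938c6_al.FiniteRankIdentity
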