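import Pool.Agent.helper66.FO.AllF

/-!
# MP_3938c6_al: algebras with a nonzero quotient without multiplication operators of finite nonzero rank

Let `K` be any field of characteristic zero (for example the rationals) and `A` an associative, not
necessarily unital, `K`-algebra of dimension greater than one all of whose proper subalgebras are
nilpotent. A multiplication operator of an algebra `A'` is a map `x ↦ ∑ u_i x v_i` of `A'` into itself
with `u_i`, `v_i` in the unitization of `A'`. If `A` has a nonzero homomorphic image `A'` such that every
multiplication operator of `A'` of finite rank is zero, then `A` is nilpotent.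
-/

set_option autoImplicit false

namespace Pool.Agent.Results.MP_3938c6_al.NoFiniteRankOperators

theorem result (K : Type*) [Field K] [CharZero K]
    (A : Type*) [NonUnitalRing A] [Module K A] [IsScalarTower K A A] [SMulCommClass K A A]
    (hdim : 1 < Module.rank K A)
    (hprop : ∀ B : NonUnitalSubalgebra K A, B ≠ ⊤ →
      ∃ n : ℕ, ∀ a ∈ B, ∀ l : List A, (∀ x ∈ l, x ∈ B) → l.length = n →
        l.foldl (fun x y => x * y) a = 0)
    (A' : Type*) [NonUnitalRing A'] [Module K A'] [IsScalarTower K A' A'] [SMulCommClass K A' A']
    [Nontrivial A'] (π : A →ₙₐ[K] A') (hπ : Function.Surjective π)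
    (hfin : ∀ (n : ℕ) (u v : Fin n → Unitization K A'),
      (∃ F : Submodule K (Unitization K A'), FiniteDimensional K F ∧
        ∀ x : A', ∑ i, u i * (Unitization.inr x : Unitization K A') * v i ∈ F) →
      ∀ x : A', ∑ i, u i * (Unitization.inr x : Unitization K A') * v i = 0) :
    ∃ n : ℕ, ∀ a : A, ∀ l : List A, l.length = n → l.foldl (fun x y => x * y) a = 0 :=
  Pool.Agent.FO.all_NFF K A hdim hprop A' π hπ hfin

end Pool.Agent.Results.MP_3938c6_al.NoFiniteRankOperators
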